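import Pool.Agent.Y996.RD.Main
import Pool.Agent.TH976.Exps

/-!
Project QH: crossing probabilities of quadrilaterals of the half-plane whose two free sides lie on
the real line. Statements of the jobs.
-/

set_option autoImplicit false

namespace Pool.Agent.Y996.QH

open MeasureTheory Set H974
open Pool.Agent.Y996.RD (pos nv Size EN pc)

open scoped ENNReal

/-- the vertices of the closed upper half-plane at distance at most `ε` from `K` -/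
def nearH (ε : ℝ) (K : Set ℂ) : Set (ℤ × ℤ) := {v | 0 ≤ v.2 ∧ ∃ z ∈ K, dist (pos ε v) z ≤ ε}

/-- the probability that an open path of the closed upper half-plane joins the two sets -/
noncomputable def crossH (ε : ℝ) (K L : Set ℂ) : ℝ :=
  (bondLaw Pool.Agent.Y996.RD.hlf).real {ω | ∃ u ∈ nearH ε K, ∃ v ∈ nearH ε L,
    Reach (opn ω ∩ {e | 0 ≤ e.2.1}) u v}

/-- the Dirichlet energy in the upper half-plane -/
noncomputable def energyH (u : ℂ → ℝ) : ℝ≥0∞ :=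
  ∫⁻ z in {z : ℂ | 0 < z.im}, ENNReal.ofReal (‖fderiv ℝ u z‖ ^ 2)

/-- What is needed of a set `K` of the closed upper half-plane, seen from its point `z` at scale
`d`; `ρ` is the size of `K` around `z`. -/
structure GoodH (ε : ℝ) (K : Set ℂ) (z : ℂ) (d ρ : ℝ) : Prop where
  sub : ∀ x ∈ K, 0 ≤ x.im
  /-- `z ∈ K`, `0 < ρ ≤ d`, some point of `K` is at distance at least `ρ / 2` from `z`, and
  `ρ = d` or `K` is contained in the closed disc of radius `ρ` around `z` -/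
  size : Size K z d ρ
  chain : ∃ x ∈ K, ρ / 2 ≤ dist x z ∧ Reach (EN (nearH ε K)) (nv ε z) (nv ε x)
  hits : ∀ r : ℝ, 0 ≤ r → r ≤ ρ / 2 → ∃ x ∈ K, dist x z = r
  base : ρ = d ∨ ∃ a : ℝ, dist z (a : ℂ) ≤ ρ ∧
    ∀ r : ℝ, 0 ≤ r → r ≤ ρ / 4 → ∃ x ∈ K, dist x (a : ℂ) = r
  mesh : ε ≤ ρ ∨ ρ = d

/-! ### Dirichlet energy -/

/-- the energy measure of the half-plane -/
noncomputable def enH (u : ℂ → ℝ) : Measure ℂ :=
  (volume.restrict {z : ℂ | 0 < z.im}).withDensity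
    (fun z => ENNReal.ofReal (‖fderiv ℝ u z‖ ^ 2))

/-- the mean on the half-circle of radius `r` around the real point `a` -/
noncomputable def cmH (u : ℂ → ℝ) (a r : ℝ) : ℝ :=
  (∫ θ in (0:ℝ)..Real.pi, u (pc (a : ℂ) r θ)) / Real.pi

/-- a set meeting the half-circles around a point of the real line -/
def S_EN1 : Prop := ∃ C : ℝ, 0 < C ∧ ∀ (u : ℂ → ℝ) (a σ δ κ : ℝ), ContDiff ℝ 1 u →
  enH u univ ≠ ⊤ → 0 < σ → σ ≤ δ →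
  (∀ r ∈ Icc (σ / 2) σ, ∃ x : ℂ, 0 ≤ x.im ∧ dist x (a : ℂ) = r ∧ u x = κ) →
  (cmH u a δ - κ) ^ 2 ≤
    (C + Real.log (δ / σ) / Real.pi) * (enH u).real {z | dist z (a : ℂ) ≤ δ}

/-- `J` is the mean of `u` on the half-circle of radius `δ` around `c` and `c` is real, or `u = J`
on a set meeting all the arcs of radius between `δ` and `2 δ` around `c`. -/
def Handle (u : ℂ → ℝ) (c : ℂ) (δ J : ℝ) : Prop :=
  (∃ a : ℝ, c = (a : ℂ) ∧ J = cmH u a δ) ∨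
    ∀ r ∈ Icc δ (2 * δ), ∃ x : ℂ, 0 ≤ x.im ∧ dist x c = r ∧ u x = J

/-- the region outside the two discs -/
def S_EN2 : Prop := ∃ C : ℝ, 0 < C ∧ ∀ (u : ℂ → ℝ) (c1 c2 : ℂ) (δ J1 J2 : ℝ), ContDiff ℝ 1 u →
  enH u univ ≠ ⊤ → 0 < δ → 0 ≤ c1.im → 0 ≤ c2.im → 8 * δ ≤ dist c1 c2 → dist c1 c2 ≤ 600 * δ →
  Handle u c1 δ J1 → Handle u c2 δ J2 →
  (J1 - J2) ^ 2 ≤ C * (enH u).real {z | δ < dist z c1 ∧ δ < dist z c2}

/-- lower bound of the energy -/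
def S_EN : Prop := ∃ C : ℝ, 0 < C ∧ ∀ (ε : ℝ) (K L : Set ℂ) (z w : ℂ) (ρ σ : ℝ) (u : ℂ → ℝ),
  GoodH ε K z (dist z w) ρ → GoodH ε L w (dist z w) σ → ContDiff ℝ 1 u → energyH u ≠ ⊤ →
  (∀ x ∈ K, u x = 0) → (∀ x ∈ L, u x = 1) →
  1 ≤ (C + (Real.log (dist z w / ρ) + Real.log (dist z w / σ)) / Real.pi) * (energyH u).toReal

/-- a function of small energy -/
def S_TE : Prop := ∀ (ε : ℝ) (K L : Set ℂ) (z w : ℂ) (ρ σ : ℝ),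
  GoodH ε K z (dist z w) ρ → GoodH ε L w (dist z w) σ →
  (∀ x ∈ K, ∀ y ∈ L, dist z w ≤ dist x y) →
  ∃ W : ℝ, 0 ≤ W ∧ Real.log (dist z w / ρ) + Real.log (dist z w / σ) - 20 ≤ W ∧
    (0 < W → ∃ u : ℂ → ℝ, ContDiff ℝ 1 u ∧ (∀ x ∈ K, u x = 0) ∧ (∀ x ∈ L, u x = 1) ∧
      energyH u ≤ ENNReal.ofReal (Real.pi / W))

/-! ### Percolation -/

/-- crossing probabilities of annuli centred near the boundary of the half-plane (in the quadrant,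
far from its vertical side) -/
def S_AR : Prop := ∃ c C : ℝ, 0 < c ∧ 0 < C ∧ ∀ (x : Vtx) (m n : ℕ), TH976.InV x → 1 ≤ n → m ≤ n →
  (n : ℤ) ≤ x.1 → (x.2 ≤ 64 * ((m : ℤ) + 1) ∨ (n : ℤ) ≤ 1000 * ((m : ℤ) + 1)) →
  c * (((m : ℝ) + 1) / n) ^ ((1 : ℝ) / 3) ≤
    Pr (fun _ => (1/2 : ℝ)) (TH976.qb x n) (TH976.Cx x m n) ∧
  Pr (fun _ => (1/2 : ℝ)) (TH976.qb x n) (TH976.Cx x m n) ≤
    C * (((m : ℝ) + 1) / n) ^ ((1 : ℝ) / 3)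

/-- joining two connected sets of vertices (in the quadrant, far from its vertical side) -/
def S_JL : Prop := ∃ c : ℝ, 0 < c ∧ ∀ (m1 m2 D : ℕ) (x1 x2 : Vtx) (N1 N2 : Set Vtx),
  1 ≤ D → 3 * m1 ≤ D → 3 * m2 ≤ D → TH976.sd x1 x2 ≤ D → TH976.InV x1 → TH976.InV x2 →
  (9 * D : ℤ) ≤ x1.1 →
  (x1.2 ≤ 64 * ((m1 : ℤ) + 1) ∨ (7 * D : ℤ) ≤ 1000 * ((m1 : ℤ) + 1)) →
  (x2.2 ≤ 64 * ((m2 : ℤ) + 1) ∨ (7 * D : ℤ) ≤ 1000 * ((m2 : ℤ) + 1)) →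
  (∀ v ∈ N1, TH976.InV v) → (∀ v ∈ N2, TH976.InV v) → x1 ∈ N1 → x2 ∈ N2 →
  (0 < m1 → ∃ b, Reach (EN N1) x1 b ∧ 3 * m1 ≤ TH976.sd b x1) →
  (0 < m2 → ∃ b, Reach (EN N2) x2 b ∧ 3 * m2 ≤ TH976.sd b x2) →
  c * ((((m1 : ℝ) + 1) / D) * (((m2 : ℝ) + 1) / D)) ^ ((1 : ℝ) / 3) ≤
    Pr (fun _ => (1/2 : ℝ)) (TH976.qb x1 (8 * D)) (fun F => ∃ u ∈ N1, ∃ v ∈ N2,
      Reach (↑F : Set Edg) u v)

/-- lower bound of the crossing probability -/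
def S_PL : Prop := ∃ c : ℝ, 0 < c ∧ ∀ (ε : ℝ) (K L : Set ℂ) (z w : ℂ) (ρ σ : ℝ), 0 < ε →
  GoodH ε K z (dist z w) ρ → GoodH ε L w (dist z w) σ →
  c * (ρ / dist z w * (σ / dist z w)) ^ ((1 : ℝ) / 3) ≤ crossH ε K L

/-- upper bound of the crossing probability -/
def S_PU : Prop := ∃ C : ℝ, 0 < C ∧ ∀ (ε : ℝ) (K L : Set ℂ) (z w : ℂ) (ρ σ : ℝ), 0 < ε →
  GoodH ε K z (dist z w) ρ → GoodH ε L w (dist z w) σ →
  (∀ x ∈ K, ∀ y ∈ L, dist z w ≤ dist x y) →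
  crossH ε K L ≤ C * (ρ / dist z w * (σ / dist z w)) ^ ((1 : ℝ) / 3)

end Pool.Agent.Y996.QH
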