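import Pool.Agent.Y996.QH.Stm

/-!
Project QH: the sets considered, the modulus, and the main statement from the four estimates.
-/

set_option autoImplicit false

namespace Pool.Agent.Y996.QH

open MeasureTheory Set H974
open Pool.Agent.Y996.RD (pos nv Size EN pc size_exists circle_hits tr tr_closed tr_compact tr_conn
  hits_inf closest one_coord nv_close dist_pos_le nv_sq)

open scoped ENNReal

/-! ### near vertices of the half-plane -/

theorem round_nonneg' {x : ℝ} (h : 0 ≤ x) : 0 ≤ round x := by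
  rw [round_eq]
  exact Int.floor_nonneg.mpr (by linarith)

theorem nv_nonneg {ε : ℝ} (hε : 0 < ε) {z : ℂ} (hz : 0 ≤ z.im) : 0 ≤ (nv ε z).2 :=
  round_nonneg' (by positivity)

theorem adj_rowH {ε : ℝ} {K : Set ℂ} {x y : ℤ} (h1 : (x, y) ∈ nearH ε K)
    (h2 : (x + 1, y) ∈ nearH ε K) : Adj (EN (nearH ε K)) (x, y) (x + 1, y) :=
  ⟨(x, y, true), ⟨h1, h2⟩, Or.inl ⟨rfl, rfl⟩⟩

theorem adj_colH {ε : ℝ} {K : Set ℂ} {x y : ℤ} (h1 : (x, y) ∈ nearH ε K)
    (h2 : (x, y + 1) ∈ nearH ε K) : Adj (EN (nearH ε K)) (x, y) (x, y + 1) :=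
  ⟨(x, y, false), ⟨h1, h2⟩, Or.inl ⟨rfl, rfl⟩⟩

theorem reach_nvH {ε : ℝ} (hε : 0 < ε) {K : Set ℂ} {z : ℂ} (hz : z ∈ K) (hi : 0 ≤ z.im)
    {v : ℤ × ℤ} (h0 : 0 ≤ v.2) (hv : dist (pos ε v) z ≤ ε) :
    Reach (EN (nearH ε K)) v (nv ε z) := by
  obtain ⟨v1, v2⟩ := v
  have hr0 : 0 ≤ round (z.im / ε) := round_nonneg' (by positivity)
  rw [dist_pos_le hε.le] at hv
  simp only at hv h0
  obtain ⟨a1, a2⟩ := one_coord hε z.re (ε * v2 - z.im) v1 hv
  obtain ⟨b1, b2⟩ := one_coord hε z.im (ε * (round (z.re / ε) : ℤ) - z.re) v2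
    (by linarith)
  have m0 : ((v1, v2) : ℤ × ℤ) ∈ nearH ε K := ⟨h0, z, hz, (dist_pos_le hε.le _ _).mpr hv⟩
  have m1 : ((round (z.re / ε), v2) : ℤ × ℤ) ∈ nearH ε K :=
    ⟨h0, z, hz, (dist_pos_le hε.le _ _).mpr a1⟩
  have m2 : ((round (z.re / ε), round (z.im / ε)) : ℤ × ℤ) ∈ nearH ε K :=
    ⟨hr0, z, hz, (dist_pos_le hε.le _ _).mpr (by simp only; linarith)⟩
  have s1 : Reach (EN (nearH ε K)) (v1, v2) (round (z.re / ε), v2) := by
    rcases a2 with h | h | h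
    · rw [h]; exact Reach.refl _ _
    · rw [h] at m1 ⊢
      exact (adj_rowH m0 m1).reach
    · rw [h] at m0 ⊢
      exact (adj_rowH m1 m0).symm.reach
  have s2 : Reach (EN (nearH ε K)) (round (z.re / ε), v2) (round (z.re / ε), round (z.im / ε)) := by
    rcases b2 with h | h | h
    · rw [h]; exact Reach.refl _ _
    · rw [h] at m2 ⊢
      exact (adj_colH m1 m2).reach
    · rw [h] at m1 ⊢
      exact (adj_colH m2 m1).symm.reach
  exact s1.trans s2

theorem stepH {ε : ℝ} (hε : 0 < ε) {K : Set ℂ} (hK : ∀ x ∈ K, 0 ≤ x.im) {x y : ℂ} (hx : x ∈ K)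
    (hy : y ∈ K) (h : dist x y < ε / 10) : Reach (EN (nearH ε K)) (nv ε x) (nv ε y) :=
  reach_nvH hε hy (hK y hy) (nv_nonneg hε (hK x hx)) (nv_close hε x y h)

/-- the bounded case -/
theorem chainH_conn {ε : ℝ} (hε : 0 < ε) {K : Set ℂ} (hi : ∀ x ∈ K, 0 ≤ x.im)
    (hK : IsPreconnected K) {z0 z1 : ℂ} (hz0 : z0 ∈ K) (hz1 : z1 ∈ K) :
    Reach (EN (nearH ε K)) (nv ε z0) (nv ε z1) := by
  suffices h : ∀ z ∈ K, Reach (EN (nearH ε K)) (nv ε z0) (nv ε z) from h z1 hz1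
  by_contra hcon
  push Not at hcon
  obtain ⟨z2, hz2, hn2⟩ := hcon
  have hk := hK (⋃ z ∈ {z ∈ K | Reach (EN (nearH ε K)) (nv ε z0) (nv ε z)}, Metric.ball z (ε / 20))
    (⋃ z ∈ {z ∈ K | ¬ Reach (EN (nearH ε K)) (nv ε z0) (nv ε z)}, Metric.ball z (ε / 20))
    (isOpen_biUnion fun _ _ => Metric.isOpen_ball) (isOpen_biUnion fun _ _ => Metric.isOpen_ball)
    (by
      intro z hz
      by_cases h : Reach (EN (nearH ε K)) (nv ε z0) (nv ε z)
      · exact Or.inl (Set.mem_biUnion ⟨hz, h⟩ (Metric.mem_ball_self (by positivity)))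
      · exact Or.inr (Set.mem_biUnion ⟨hz, h⟩ (Metric.mem_ball_self (by positivity))))
    ⟨z0, hz0, Set.mem_biUnion ⟨hz0, Reach.refl _ _⟩ (Metric.mem_ball_self (by positivity))⟩
    ⟨z2, hz2, Set.mem_biUnion ⟨hz2, hn2⟩ (Metric.mem_ball_self (by positivity))⟩
  obtain ⟨w, hw, h1, h2⟩ := hk
  simp only [Set.mem_iUnion, Metric.mem_ball, exists_prop] at h1 h2
  obtain ⟨a, ⟨ha, ha'⟩, h3⟩ := h1
  obtain ⟨b, ⟨hb, hb'⟩, h4⟩ := h2
  apply hb'
  refine ha'.trans (stepH hε hi ha hb ?_)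
  calc dist a b ≤ dist a w + dist w b := dist_triangle _ _ _
    _ < ε / 10 := by rw [dist_comm a w]; linarith

/-- the case of a set containing `∞` -/
theorem chainH_inf {ε : ℝ} (hε : 0 < ε) {B : Set (OnePoint ℂ)} (hi : ∀ x ∈ tr B, 0 ≤ x.im)
    (hBc : IsClosed B) (hB : IsPreconnected B) (h : OnePoint.infty ∈ B) {z : ℂ} (hz : z ∈ tr B)
    (ρ : ℝ) : ∃ x ∈ tr B, ρ / 2 ≤ dist x z ∧ Reach (EN (nearH ε (tr B))) (nv ε z) (nv ε x) := by
  by_contra hcon
  push Not at hcon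
  have hL := tr_closed hBc
  obtain ⟨U, hU⟩ : ∃ U : Set ℂ,
    U = {x | x ∈ tr B ∧ Reach (EN (nearH ε (tr B))) (nv ε z) (nv ε x)} := ⟨_, rfl⟩
  obtain ⟨V, hV⟩ : ∃ V : Set ℂ,
    V = {x | x ∈ tr B ∧ ¬ Reach (EN (nearH ε (tr B))) (nv ε z) (nv ε x)} := ⟨_, rfl⟩
  have hUc : IsClosed U := by
    rw [← closure_subset_iff_isClosed]
    intro x hx
    have hxL : x ∈ tr B := hL.closure_subset_iff.mpr (by rw [hU]; exact fun y hy => hy.1) hx
    obtain ⟨y, hy, hxy⟩ := Metric.mem_closure_iff.mp hx (ε / 10) (by positivity)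
    rw [hU] at hy ⊢
    exact ⟨hxL, hy.2.trans (stepH hε hi hy.1 hxL (by rw [dist_comm]; exact hxy))⟩
  have hVc : IsClosed V := by
    rw [← closure_subset_iff_isClosed]
    intro x hx
    have hxL : x ∈ tr B := hL.closure_subset_iff.mpr (by rw [hV]; exact fun y hy => hy.1) hx
    obtain ⟨y, hy, hxy⟩ := Metric.mem_closure_iff.mp hx (ε / 10) (by positivity)
    rw [hV] at hy ⊢
    refine ⟨hxL, fun hr => hy.2 (hr.trans (stepH hε hi hxL hy.1 hxy))⟩
  have hUk : IsCompact U := by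
    apply (isCompact_closedBall z (ρ / 2)).of_isClosed_subset hUc
    intro x hx
    rw [hU] at hx
    rw [Metric.mem_closedBall]
    by_contra hlt
    exact hcon x hx.1 (not_le.mp hlt).le hx.2
  have hc1 : IsClosed (((↑) : ℂ → OnePoint ℂ) '' U) :=
    OnePoint.isClosed_image_coe.mpr ⟨hUc, hUk⟩
  have hc2 : IsClosed ((((↑) : ℂ → OnePoint ℂ) '' Vᶜ)ᶜ) :=
    (OnePoint.isOpenMap_coe _ hVc.isOpen_compl).isClosed_compl
  obtain ⟨b, hb, hb1, hb2⟩ := isPreconnected_closed_iff.mp hB _ _ hc1 hc2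
    (by
      intro b hb
      induction b using OnePoint.rec with
      | infty =>
        right
        rintro ⟨x, _, hx⟩
        exact OnePoint.coe_ne_infty x hx
      | coe x =>
        by_cases hr : Reach (EN (nearH ε (tr B))) (nv ε z) (nv ε x)
        · left
          exact ⟨x, by rw [hU]; exact ⟨hb, hr⟩, rfl⟩
        · right
          rintro ⟨y, hy, hyx⟩
          rw [OnePoint.coe_eq_coe] at hyx
          subst hyx
          apply hy
          rw [hV]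
          exact ⟨hb, hr⟩)
    ⟨(z : OnePoint ℂ), hz, ⟨z, by rw [hU]; exact ⟨hz, Reach.refl _ _⟩, rfl⟩⟩
    ⟨OnePoint.infty, h, by
      rintro ⟨x, _, hx⟩
      exact OnePoint.coe_ne_infty x hx⟩
  obtain ⟨x, hx, rfl⟩ := hb1
  apply hb2
  refine ⟨x, ?_, rfl⟩
  intro hxV
  rw [hU] at hx
  rw [hV] at hxV
  exact hxV.2 hx.2

/-! ### the sets -/

/-- a closed connected subset of the closed upper half-plane (with the point at infinity) which
touches its boundary -/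
structure Side (A : Set (OnePoint ℂ)) : Prop where
  closed : IsClosed A
  conn : IsPreconnected A
  sub : ∀ x ∈ tr A, 0 ≤ x.im
  touch : OnePoint.infty ∈ A ∨ ∃ a : ℝ, (a : ℂ) ∈ tr A

theorem goodH_fin {A : Set (OnePoint ℂ)} (hA : Side A) (hinf : OnePoint.infty ∉ A) {z : ℂ}
    (hz : z ∈ tr A) {d ε : ℝ} (hd : 0 < d) (hε : 0 < ε)
    (h : ∃ x ∈ tr A, ∃ y ∈ tr A, ε ≤ dist x y) : ∃ ρ, GoodH ε (tr A) z d ρ := by
  have hK := tr_closed hA.closed
  have hK' := tr_conn hA.conn hinf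
  obtain ⟨ρ, h1, h2⟩ := size_exists hK hz hd hε h
  obtain ⟨x0, hx0, hx0d⟩ := h1.far
  refine ⟨ρ, hA.sub, h1, ⟨x0, hx0, hx0d, chainH_conn hε hA.sub hK' hz hx0⟩,
    fun r hr hr2 => circle_hits hK' h1 hr hr2, ?_, h2⟩
  rcases h1.bd with h3 | h3
  · exact Or.inl h3
  · right
    obtain ⟨a, ha⟩ : ∃ a : ℝ, (a : ℂ) ∈ tr A := by
      rcases hA.touch with h | h
      · exact absurd h hinf
      · exact h
    refine ⟨a, ?_, fun r hr hr2 => ?_⟩
    · rw [dist_comm]
      exact Metric.mem_closedBall.mp (h3 ha)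
    · -- a point at distance at least `ρ / 4` from `a`
      obtain ⟨y, hy, hyd⟩ : ∃ y ∈ tr A, ρ / 4 ≤ dist y (a : ℂ) := by
        by_cases hc : ρ / 4 ≤ dist x0 (a : ℂ)
        · exact ⟨x0, hx0, hc⟩
        · refine ⟨z, hz, ?_⟩
          have h4 := dist_triangle x0 (a : ℂ) z
          rw [dist_comm (a : ℂ) z] at h4
          linarith [not_le.mp hc]
      have hcd : ContinuousOn (fun x : ℂ => dist x (a : ℂ)) (tr A) :=
        (continuous_id.dist continuous_const).continuousOn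
      have h5 := hK'.intermediate_value ha hy hcd
      have h6 : r ∈ Icc (dist (a : ℂ) (a : ℂ)) (dist y (a : ℂ)) := by
        rw [dist_self]; exact ⟨hr, hr2.trans hyd⟩
      obtain ⟨x, hx, hxr⟩ := h5 h6
      exact ⟨x, hx, hxr⟩

theorem goodH_inf {A : Set (OnePoint ℂ)} (hA : Side A) (hinf : OnePoint.infty ∈ A) {z : ℂ}
    (hz : z ∈ tr A) {d ε : ℝ} (hd : 0 < d) (hε : 0 < ε) : GoodH ε (tr A) z d d := by
  obtain ⟨x, hx, hxd⟩ := hits_inf hA.conn hinf hz (r := d / 2) (by positivity)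
  exact ⟨hA.sub, ⟨hz, hd, le_rfl, ⟨x, hx, hxd.ge⟩, Or.inl rfl⟩,
    chainH_inf hε hA.sub hA.closed hA.conn hinf hz d,
    fun r hr _ => hits_inf hA.conn hinf hz hr, Or.inl rfl, Or.inr rfl⟩

theorem goodH {A : Set (OnePoint ℂ)} (hA : Side A) {z : ℂ}
    (hz : z ∈ tr A) {d ε : ℝ} (hd : 0 < d) (hε : 0 < ε)
    (h : ∃ x ∈ tr A, ∃ y ∈ tr A, ε ≤ dist x y) : ∃ ρ, GoodH ε (tr A) z d ρ := by
  by_cases hinf : OnePoint.infty ∈ A
  · exact ⟨d, goodH_inf hA hinf hz hd hε⟩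
  · exact goodH_fin hA hinf hz hd hε h

/-! ### the modulus -/

/-- the capacity of the quadrilateral of the half-plane with sides `K` and `L` -/
noncomputable def capacityH (K L : Set ℂ) : ℝ≥0∞ :=
  ⨅ (u : ℂ → ℝ) (_ : ContDiff ℝ 1 u ∧ (∀ z ∈ K, u z = 0) ∧ ∀ z ∈ L, u z = 1), energyH u

/-- the modulus (extremal distance) -/
noncomputable def modulusH (K L : Set ℂ) : ℝ := (capacityH K L).toReal⁻¹

theorem modulusH_bd (hEN : S_EN) (hTE : S_TE) : ∃ C : ℝ, 0 < C ∧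
    ∀ (ε : ℝ) (K L : Set ℂ) (z w : ℂ) (ρ σ : ℝ),
    GoodH ε K z (dist z w) ρ → GoodH ε L w (dist z w) σ →
    (∀ x ∈ K, ∀ y ∈ L, dist z w ≤ dist x y) →
    modulusH K L ≤ C + (Real.log (dist z w / ρ) + Real.log (dist z w / σ)) / Real.pi ∧
    (Real.log (dist z w / ρ) + Real.log (dist z w / σ)) / Real.pi ≤ modulusH K L + C := by
  obtain ⟨C, hC, hEN⟩ := hEN
  have hpi := Real.pi_pos
  have hpi3 := Real.pi_gt_three
  refine ⟨C + 7, by positivity, ?_⟩
  intro ε K L z w ρ σ h1 h2 hmin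
  have l1 : 0 ≤ Real.log (dist z w / ρ) :=
    Pool.Agent.Y996.RD.log_div_nonneg h1.size.pos h1.size.le
  have l2 : 0 ≤ Real.log (dist z w / σ) :=
    Pool.Agent.Y996.RD.log_div_nonneg h2.size.pos h2.size.le
  obtain ⟨B, hB⟩ : ∃ B, B = C + (Real.log (dist z w / ρ) + Real.log (dist z w / σ)) / Real.pi :=
    ⟨_, rfl⟩
  have hB0 : 0 < B := by
    rw [hB]
    have : 0 ≤ (Real.log (dist z w / ρ) + Real.log (dist z w / σ)) / Real.pi :=
      div_nonneg (add_nonneg l1 l2) hpi.le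
    linarith
  have hcap : ENNReal.ofReal (1 / B) ≤ capacityH K L := by
    unfold capacityH
    refine le_iInf fun u => le_iInf fun hu => ?_
    by_cases hfin : energyH u = ⊤
    · rw [hfin]; exact le_top
    have h3 := hEN ε K L z w ρ σ u h1 h2 hu.1 hfin hu.2.1 hu.2.2
    rw [← hB] at h3
    refine ENNReal.ofReal_le_of_le_toReal ?_
    rw [div_le_iff₀ hB0, mul_comm]
    exact h3
  have hpos : 0 < capacityH K L := lt_of_lt_of_le (ENNReal.ofReal_pos.mpr (by positivity)) hcap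
  have hm0 : 0 ≤ modulusH K L := by unfold modulusH; positivity
  constructor
  · have h4 : modulusH K L ≤ B := by
      unfold modulusH
      by_cases hfin : capacityH K L = ⊤
      · rw [hfin, ENNReal.toReal_top, inv_zero]; exact hB0.le
      · have h3 := (ENNReal.ofReal_le_iff_le_toReal hfin).mp hcap
        have h4 : 0 < 1 / B := by positivity
        calc ((capacityH K L).toReal)⁻¹ ≤ (1 / B)⁻¹ := inv_anti₀ h4 h3
          _ = B := by rw [one_div, inv_inv]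
    linarith
  · obtain ⟨W, hW0, hW1, hW2⟩ := hTE ε K L z w ρ σ h1 h2 hmin
    have hmain : W / Real.pi ≤ modulusH K L := by
      rcases hW0.eq_or_lt with h0 | h0
      · rw [← h0, zero_div]; exact hm0
      · obtain ⟨u, hu1, hu2, hu3, hu4⟩ := hW2 h0
        have h5 : capacityH K L ≤ ENNReal.ofReal (Real.pi / W) :=
          (iInf₂_le u ⟨hu1, hu2, hu3⟩).trans hu4
        have h6 : capacityH K L ≠ ⊤ := ne_top_of_le_ne_top ENNReal.ofReal_ne_top h5
        have h7 : (capacityH K L).toReal ≤ Real.pi / W := by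
          rw [← ENNReal.toReal_ofReal (show 0 ≤ Real.pi / W by positivity)]
          exact ENNReal.toReal_mono ENNReal.ofReal_ne_top h5
        have h8 : 0 < (capacityH K L).toReal := ENNReal.toReal_pos hpos.ne' h6
        unfold modulusH
        calc W / Real.pi = (Real.pi / W)⁻¹ := by rw [inv_div]
          _ ≤ _ := inv_anti₀ h8 h7
    have h9 : (Real.log (dist z w / ρ) + Real.log (dist z w / σ)) / Real.pi - 20 / Real.pi ≤
        W / Real.pi := by
      rw [← sub_div]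
      exact div_le_div_of_nonneg_right (by linarith) hpi.le
    have h10 : 20 / Real.pi ≤ 7 := by
      rw [div_le_iff₀ hpi]; linarith
    linarith

theorem capacityH_symm_le (K L : Set ℂ) : capacityH K L ≤ capacityH L K := by
  unfold capacityH
  refine le_iInf fun u => le_iInf fun hu => ?_
  have h1 : ContDiff ℝ 1 (fun z => 1 - u z) := contDiff_const.sub hu.1
  have h2 : ∀ z ∈ K, (fun z => 1 - u z) z = 0 := by
    intro z hz
    simp only [hu.2.2 z hz, sub_self]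
  have h3 : ∀ z ∈ L, (fun z => 1 - u z) z = 1 := by
    intro z hz
    simp only [hu.2.1 z hz, sub_zero]
  refine (iInf₂_le (fun z => 1 - u z) ⟨h1, h2, h3⟩).trans (le_of_eq ?_)
  unfold energyH
  apply lintegral_congr
  intro z
  have : fderiv ℝ (fun z => 1 - u z) z = - fderiv ℝ u z := by
    rw [fderiv_const_sub]
  rw [this, norm_neg]

theorem modulusH_symm (K L : Set ℂ) : modulusH K L = modulusH L K := by
  unfold modulusH
  rw [le_antisymm (capacityH_symm_le K L) (capacityH_symm_le L K)]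

theorem crossH_symm (ε : ℝ) (K L : Set ℂ) : crossH ε K L = crossH ε L K := by
  unfold crossH
  congr 1
  ext ω
  constructor
  · rintro ⟨u, hu, v, hv, h⟩
    exact ⟨v, hv, u, hu, h.symm⟩
  · rintro ⟨u, hu, v, hv, h⟩
    exact ⟨v, hv, u, hu, h.symm⟩

theorem pow_expH {d ρ σ : ℝ} (hd : 0 < d) (hρ : 0 < ρ) (hσ : 0 < σ) :
    (ρ / d * (σ / d)) ^ ((1:ℝ) / 3) = Real.exp (-(Real.pi / 3) *
      ((Real.log (d / ρ) + Real.log (d / σ)) / Real.pi)) := by
  have hpi := Real.pi_pos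
  rw [Real.rpow_def_of_pos (by positivity), Real.log_mul (by positivity) (by positivity)]
  congr 1
  have e1 : Real.log (ρ / d) = -Real.log (d / ρ) := by rw [← Real.log_inv, inv_div]
  have e2 : Real.log (σ / d) = -Real.log (d / σ) := by rw [← Real.log_inv, inv_div]
  rw [e1, e2]
  field_simp
  ring

/-- **The crossing probability of a quadrilateral of the half-plane.** -/
theorem mainH (hPL : S_PL) (hPU : S_PU) (hEN : S_EN) (hTE : S_TE) : ∃ c C : ℝ, 0 < c ∧ 0 < C ∧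
    ∀ (A B : Set (OnePoint ℂ)) (ε : ℝ), Side A → Side B → Disjoint A B → 0 < ε →
    (∃ x ∈ tr A, ∃ y ∈ tr A, ε ≤ dist x y) → (∃ x ∈ tr B, ∃ y ∈ tr B, ε ≤ dist x y) →
    c * Real.exp (-(Real.pi / 3) * modulusH (tr A) (tr B)) ≤ crossH ε (tr A) (tr B) ∧
    crossH ε (tr A) (tr B) ≤ C * Real.exp (-(Real.pi / 3) * modulusH (tr A) (tr B)) := by
  obtain ⟨M, hM, hmod⟩ := modulusH_bd hEN hTE
  obtain ⟨c', hc', hlow⟩ := hPL
  obtain ⟨C', hC', hup⟩ := hPU
  have hpi := Real.pi_pos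
  refine ⟨c' * Real.exp (-(Real.pi / 3) * M), C' * Real.exp (Real.pi / 3 * M),
    by positivity, by positivity, ?_⟩
  have key : ∀ (A B : Set (OnePoint ℂ)) (ε : ℝ), OnePoint.infty ∉ A →
      Side A → Side B → Disjoint A B → 0 < ε →
      (∃ x ∈ tr A, ∃ y ∈ tr A, ε ≤ dist x y) → (∃ x ∈ tr B, ∃ y ∈ tr B, ε ≤ dist x y) →
      c' * Real.exp (-(Real.pi / 3) * M) * Real.exp (-(Real.pi / 3) *
        modulusH (tr A) (tr B)) ≤ crossH ε (tr A) (tr B) ∧
      crossH ε (tr A) (tr B) ≤ C' * Real.exp (Real.pi / 3 * M) *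
        Real.exp (-(Real.pi / 3) * modulusH (tr A) (tr B)) := by
    intro A B ε hinf hA hB hdis hε hAd hBd
    have hAd' := hAd
    have hBd' := hBd
    obtain ⟨x0, hx0, -⟩ := hAd'
    obtain ⟨y0, hy0, -⟩ := hBd'
    obtain ⟨z, hz, w, hw, hmin⟩ := closest (tr_compact hA.closed hinf) ⟨x0, hx0⟩
      (tr_closed hB.closed) ⟨y0, hy0⟩
    have hne : z ≠ w := by
      intro h
      rw [h] at hz
      exact Set.disjoint_left.mp hdis hz hw
    have hd0 : 0 < dist z w := dist_pos.mpr hne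
    obtain ⟨ρ, h1⟩ := goodH hA hz hd0 hε hAd
    obtain ⟨σ, h2⟩ := goodH hB hw hd0 hε hBd
    have a1 := hlow ε (tr A) (tr B) z w ρ σ hε h1 h2
    have a2 := hup ε (tr A) (tr B) z w ρ σ hε h1 h2 hmin
    obtain ⟨m1, m2⟩ := hmod ε (tr A) (tr B) z w ρ σ h1 h2 hmin
    rw [pow_expH hd0 h1.size.pos h2.size.pos] at a1 a2
    obtain ⟨Λ, hΛ⟩ : ∃ Λ, Λ = (Real.log (dist z w / ρ) + Real.log (dist z w / σ)) /
      Real.pi := ⟨_, rfl⟩
    rw [← hΛ] at a1 a2 m1 m2
    constructor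
    · refine le_trans ?_ a1
      rw [mul_assoc, ← Real.exp_add]
      apply mul_le_mul_of_nonneg_left _ hc'.le
      apply Real.exp_le_exp.mpr
      nlinarith
    · refine a2.trans ?_
      rw [mul_assoc, ← Real.exp_add]
      apply mul_le_mul_of_nonneg_left _ hC'.le
      apply Real.exp_le_exp.mpr
      nlinarith
  intro A B ε hA hB hdis hε hAd hBd
  by_cases hinf : OnePoint.infty ∈ A
  · have hinfB : OnePoint.infty ∉ B := fun h => Set.disjoint_left.mp hdis hinf h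
    have := key B A ε hinfB hB hA hdis.symm hε hBd hAd
    rw [crossH_symm ε (tr A), modulusH_symm (tr A)]
    exact this
  · exact key A B ε hinf hA hB hdis hε hAd hBd

end Pool.Agent.Y996.QH
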