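/-
Project QH: the assembled theorem. All seven modules of the project are used here:
`AR`, `JL`, `PL`, `PU` (percolation), `EN1`, `EN2`, `EN3`, `TE` (extremal distance).
-/
import Pool.Agent.Y996.QH.Main
import Pool.Agent.Y664.QH.AR
import Pool.Agent.Y655.QH.Jl
import Pool.Agent.Y270.QH.PL
import Pool.Agent.Y968.QH.Pu
import Pool.Agent.Y41.QH.En3
import Pool.Agent.Y674.QH.Half
import Pool.Agent.Y674.QH.Mid
import Pool.Agent.Y991.QH.TE

namespace Pool.Agent.Y996.QH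

open Pool.Agent.Y996.RD (tr)

theorem main : ∃ c C : ℝ, 0 < c ∧ 0 < C ∧
    ∀ (A B : Set (OnePoint ℂ)) (ε : ℝ), Side A → Side B → Disjoint A B → 0 < ε →
    (∃ x ∈ tr A, ∃ y ∈ tr A, ε ≤ dist x y) → (∃ x ∈ tr B, ∃ y ∈ tr B, ε ≤ dist x y) →
    c * Real.exp (-(Real.pi / 3) * modulusH (tr A) (tr B)) ≤ crossH ε (tr A) (tr B) ∧
    crossH ε (tr A) (tr B) ≤ C * Real.exp (-(Real.pi / 3) * modulusH (tr A) (tr B)) :=
  mainH (Pool.Agent.Y270.QH.pl (Pool.Agent.Y655.QH.jl Pool.Agent.Y664.QH.ar))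
    (Pool.Agent.Y968.QH.pu Pool.Agent.Y664.QH.ar)
    (Pool.Agent.Y41.QH.en3 Pool.Agent.Y674.QH.en1 Pool.Agent.Y674.QH.en2)
    Pool.Agent.Y991.QH.te

end Pool.Agent.Y996.QH
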